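import Mathlib

set_option autoImplicit false

namespace Pool.Agent.Results.MP_0f9f23_al.NotRetract

open MvPolynomial

universe u

/-- The stable image `⋂_{k ≥ 1} φ^k(A)` of an endomorphism. -/
def stableImage {K A : Type*} [CommSemiring K] [Semiring A] [Algebra K A] (φ : A →ₐ[K] A) :
    Subalgebra K A := ⨅ k : ℕ, (φ ^ (k + 1)).range

/-- `R` is a retract of `A`. -/
def IsRetract {K A : Type*} [CommSemiring K] [Semiring A] [Algebra K A] (R : Subalgebra K A) :
    Prop := ∃ π : A →ₐ[K] R, ∀ r : R, π r = r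

variable (K : Type u) [Field K] (m : ℕ)

/-- `x ↦ x`, `y ↦ y - (x + 1) z²`, `z ↦ x z`, other variables fixed. -/
noncomputable def phi : MvPolynomial (Fin (m + 3)) K →ₐ[K] MvPolynomial (Fin (m + 3)) K :=
  aeval fun i => if i = 1 then X 1 - (X 0 + 1) * X 2 ^ 2 else if i = 2 then X 0 * X 2 else X i

noncomputable def tau : MvPolynomial (Fin (m + 3)) K →ₐ[K] MvPolynomial (Fin (m + 3)) K :=
  aeval fun i => if i = 2 then -X 2 else X i

lemma n01 : (0 : Fin (m + 3)) ≠ 1 := by simp
lemma n02 : (0 : Fin (m + 3)) ≠ 2 := by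
  simp [Fin.ext_iff, Nat.mod_eq_of_lt (show 2 < m + 3 by omega)]
lemma n12 : (1 : Fin (m + 3)) ≠ 2 := by
  simp [Fin.ext_iff, Nat.mod_eq_of_lt (show 2 < m + 3 by omega)]

lemma phi0 : phi K m (X 0) = X 0 := by simp [phi, n01, n02]
lemma phi1 : phi K m (X 1) = X 1 - (X 0 + 1) * X 2 ^ 2 := by simp [phi]
lemma phi2 : phi K m (X 2) = X 0 * X 2 := by simp [phi, (n12 m).symm]

lemma comm : (tau K m).comp (phi K m) = (phi K m).comp (tau K m) := by
  ext1 i
  by_cases h1 : i = 1
  · subst h1; simp [phi, tau, n12, n02]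
  by_cases h2 : i = 2
  · subst h2; simp [phi, tau, n02, (n12 m).symm]
  simp [phi, tau, h1, h2]

lemma dvd (k : ℕ) (f : MvPolynomial (Fin (m + 3)) K) :
    X 0 ^ k * X 2 ∣ tau K m ((phi K m ^ k) f) - (phi K m ^ k) f := by
  induction k with
  | zero =>
    induction f using MvPolynomial.induction_on with
    | C a => simp
    | add p q hp hq =>
      simp only [map_add]
      rw [add_sub_add_comm]
      exact dvd_add hp hq
    | mul_X p i hp =>
      simp only [pow_zero, one_mul, AlgHom.one_apply, map_mul] at hp ⊢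
      rw [show tau K m p * tau K m (X i) - p * X i =
        (tau K m p - p) * tau K m (X i) + p * (tau K m (X i) - X i) by ring]
      refine dvd_add (hp.mul_right _) (Dvd.dvd.mul_left ?_ _)
      by_cases h : i = 2
      · subst h; exact ⟨-2, by simp [tau]; ring⟩
      · simp [tau, h]
  | succ k ih =>
    have h1 := map_dvd (phi K m) ih
    rw [map_mul, map_pow, phi0, phi2, map_sub, ← mul_assoc, ← pow_succ] at h1
    rw [pow_succ' (phi K m), AlgHom.mul_apply]
    exact (DFunLike.congr_fun (comm K m) ((phi K m ^ k) f) :) ▸ h1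

lemma tau_eq {r : MvPolynomial (Fin (m + 3)) K} (h : r ∈ stableImage (phi K m)) :
    tau K m r = r := by
  by_contra h1
  obtain ⟨f, hf⟩ := Algebra.mem_iInf.mp h (tau K m r - r).totalDegree
  have h2 := (dvd_mul_right _ _).trans (dvd K m ((tau K m r - r).totalDegree + 1) f)
  rw [show (phi K m ^ _) f = r from hf] at h2
  have := totalDegree_le_of_dvd_of_isDomain h2 (sub_ne_zero.mpr h1)
  rw [totalDegree_X_pow] at this
  omega

lemma mem_of_fix {r : MvPolynomial (Fin (m + 3)) K} (h : phi K m r = r) :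
    r ∈ stableImage (phi K m) := by
  refine Algebra.mem_iInf.mpr fun k => ⟨r, ?_⟩
  change (phi K m ^ (k + 1)) r = r
  induction k with
  | zero => simpa using h
  | succ k ih => rw [pow_succ', AlgHom.mul_apply, ih, h]

/-- For every field `K` of characteristic `0` and every `n ≥ 3` there is an endomorphism of
`K[x₁, …, xₙ]` whose stable image is not a retract. -/
theorem result (K : Type u) [Field K] [CharZero K] (n : ℕ) (hn : 3 ≤ n) :
    ∃ φ : MvPolynomial (Fin n) K →ₐ[K] MvPolynomial (Fin n) K, ¬ IsRetract (stableImage φ) := by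
  obtain ⟨m, rfl⟩ : ∃ m, n = m + 3 := ⟨n - 3, by omega⟩
  refine ⟨phi K m, fun ⟨π, hπ⟩ => ?_⟩
  have h0 := congrArg Subtype.val (hπ ⟨_, mem_of_fix K m (phi0 K m)⟩)
  have h1 := congrArg Subtype.val (hπ ⟨(X 0 - 1) * X 1 + X 2 ^ 2, mem_of_fix K m (by
    simp only [map_add, map_mul, map_sub, map_pow, map_one, phi0, phi1, phi2]; ring)⟩)
  simp only [map_add, map_mul, map_sub, map_pow, map_one, Subalgebra.coe_add, Subalgebra.coe_mul,
    Subalgebra.coe_sub, Subalgebra.coe_pow, Subalgebra.coe_one] at h0 h1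
  let ε : MvPolynomial (Fin (m + 3)) K →ₐ[K] Polynomial K :=
    aeval fun i => if i = 2 then Polynomial.X else 1
  have h2 := congrArg ε h1
  have h3 : ε.comp (tau K m) = (Polynomial.aeval (-Polynomial.X)).comp ε := by
    ext1 i
    by_cases h : i = 2 <;> simp [ε, tau, h]
  have h4 := DFunLike.congr_fun h3 (π (X 2)).1
  rw [AlgHom.comp_apply, tau_eq K m (π (X 2)).2, AlgHom.comp_apply] at h4
  have h5 : ε (π (X 2)).1 ^ 2 = Polynomial.X ^ 2 := by simpa [h0, ε, n02] using h2
  rcases sq_eq_sq_iff_eq_or_eq_neg.mp h5 with h | h <;> rw [h] at h4 <;>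
    have := congrArg (Polynomial.eval 1) h4 <;> norm_num at this

end Pool.Agent.Results.MP_0f9f23_al.NotRetract
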